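import Pool.Agent.Lib_helper6.BB.Main

/-!
# MP_940430: smooth convex billiards with a flat double normal are not ergodic
-/

namespace Pool.Agent.Results.MP_940430_an.FlatDoubleNormal

open BB

/-- Let `D` be a bounded convex domain with `C^∞` boundary `γ`.  If a chord of `D` is orthogonal to the
boundary at both of its end points `γ s₀`, `γ s₁`, and the curvature of the boundary vanishes at both of
them, then the billiard in `D` is not ergodic. -/
theorem result : ∀ (D : Set ℂ) (γ : ℝ → ℂ) (ℓ : ℝ), SmoothTable D γ ℓ →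
    ∀ s₀ s₁ : ℝ, γ s₀ ≠ γ s₁ →
      ((γ s₁ - γ s₀) * (starRingEnd ℂ) (deriv γ s₀)).re = 0 →
      ((γ s₁ - γ s₀) * (starRingEnd ℂ) (deriv γ s₁)).re = 0 →
      deriv (deriv γ) s₀ = 0 → deriv (deriv γ) s₁ = 0 →
      ¬ ErgodicTable γ ℓ := by
  intro D γ ℓ hD s₀ s₁ hne h0 h1 hk0 hk1 herg
  obtain ⟨A, hA, hA1, hA2⟩ := BB.final BB.kam hD hne h0 h1 hk0 hk1
  rcases herg A hA with h | h
  · exact hA1 h
  · exact hA2 h

end Pool.Agent.Results.MP_940430_an.FlatDoubleNormal
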